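import Mathlib

/-!
# The D'Arcais polynomials: the coefficients of `x`, `x²`, `x³`
-/

set_option autoImplicit false

open Finset

namespace Pool.Agent.W238.Darcais

/-- `σ(k)/k` -/
def c (k : ℕ) : ℚ := ((ArithmeticFunction.sigma 1 k : ℕ) : ℚ) / k

theorem c_eq (k : ℕ) (hk : k ≠ 0) : c k = ∑ d ∈ k.divisors, (1 / (d : ℚ)) := by
  unfold c
  rw [← Nat.sum_div_divisors, ArithmeticFunction.sigma_one_apply]
  push_cast
  rw [Finset.sum_div]
  apply Finset.sum_congr rfl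
  intro d hd
  have hdk := Nat.dvd_of_mem_divisors hd
  have hd0 : (d : ℚ) ≠ 0 := by
    have := Nat.pos_of_mem_divisors hd
    positivity
  have hk0 : (k : ℚ) ≠ 0 := by exact_mod_cast hk
  rw [Nat.cast_div hdk hd0]
  field_simp

theorem one_le_c {k : ℕ} (hk : k ≠ 0) : 1 ≤ c k := by
  rw [c_eq k hk]
  have h : (1 : ℚ) / ((1 : ℕ) : ℚ) ≤ ∑ d ∈ k.divisors, (1 / (d : ℚ)) :=
    Finset.single_le_sum (f := fun d : ℕ => (1 / (d : ℚ))) (fun d _ => by positivity)
      (Nat.one_mem_divisors.2 hk)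
  simpa using h

theorem c_nonneg (k : ℕ) : 0 ≤ c k := by unfold c; positivity

theorem le_sigma {k : ℕ} (hk : k ≠ 0) : (k : ℚ) ≤ ((ArithmeticFunction.sigma 1 k : ℕ) : ℚ) := by
  have h := one_le_c hk
  unfold c at h
  have hk0 : (0 : ℚ) < k := by
    have := Nat.pos_of_ne_zero hk
    positivity
  rwa [le_div_iff₀ hk0, one_mul] at h

/-- `∑_{e ≤ d ≤ N} 1/d² ≤ 2/e` -/
theorem sum_inv_sq (e : ℕ) (he : 1 ≤ e) (N : ℕ) :
    ∑ d ∈ Icc e N, (1 / ((d : ℚ) ^ 2)) ≤ 2 / (e : ℚ) := by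
  have he0 : (0 : ℚ) < e := by exact_mod_cast he
  rcases Nat.lt_or_ge N e with h | h
  · rw [Finset.Icc_eq_empty (by omega), Finset.sum_empty]
    positivity
  · have key : ∀ N, e ≤ N → ∑ d ∈ Icc e N, (1 / ((d : ℚ) ^ 2)) ≤ 2 / (e : ℚ) - 1 / (N : ℚ) := by
      intro N hN
      induction N, hN using Nat.le_induction with
      | base =>
        rw [Finset.Icc_self, Finset.sum_singleton]
        have h1 : (1 : ℚ) ≤ e := by exact_mod_cast he
        have h2 : (1 : ℚ) / (e : ℚ) ^ 2 ≤ 1 / (e : ℚ) := by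
          apply one_div_le_one_div_of_le he0
          nlinarith
        have h3 : (2 : ℚ) / (e : ℚ) - 1 / (e : ℚ) = 1 / (e : ℚ) := by ring
        linarith
      | succ N hN ih =>
        rw [Finset.sum_Icc_succ_top (by omega)]
        have hN0 : (0 : ℚ) < N := by
          have : 0 < N := by omega
          exact_mod_cast this
        have h1 : (1 : ℚ) / ((N + 1 : ℕ) : ℚ) ^ 2 ≤ 1 / (N : ℚ) - 1 / ((N + 1 : ℕ) : ℚ) := by
          push_cast
          rw [div_sub_div _ _ hN0.ne' (by positivity), div_le_div_iff₀ (by positivity) (by positivity)]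
          nlinarith
        linarith
    have h1 := key N h
    have h2 : (0 : ℚ) ≤ 1 / (N : ℚ) := by positivity
    linarith

theorem card_le (N d e : ℕ) (hd : 1 ≤ d) (he : 1 ≤ e) :
    (((Icc 1 N).filter fun k => d ∣ k ∧ e ∣ k).card : ℚ) ≤ (N : ℚ) / ((max d e : ℕ) : ℚ) := by
  have h1 : ((Icc 1 N).filter fun k => d ∣ k ∧ e ∣ k).card ≤ N / (max d e) := by
    have h2 : ((Icc 1 N).filter fun k => d ∣ k ∧ e ∣ k) ⊆ (Ioc 0 N).filter fun k => max d e ∣ k := by
      intro k hk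
      rw [Finset.mem_filter, Finset.mem_Icc] at hk
      rw [Finset.mem_filter, Finset.mem_Ioc]
      refine ⟨by omega, ?_⟩
      rcases max_choice d e with h | h
      · rw [h]; exact hk.2.1
      · rw [h]; exact hk.2.2
    refine (Finset.card_le_card h2).trans ?_
    rw [Nat.Ioc_filter_dvd_card_eq_div]
  have h3 : (((N / (max d e) : ℕ)) : ℚ) ≤ (N : ℚ) / ((max d e : ℕ) : ℚ) := Nat.cast_div_le
  exact le_trans (by exact_mod_cast h1) h3

theorem sum_sq_le (N : ℕ) : ∑ k ∈ Icc 1 N, c k ^ 2 ≤ 8 * N := by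
  have h1 : ∑ k ∈ Icc 1 N, c k ^ 2 = ∑ d ∈ Icc 1 N, ∑ e ∈ Icc 1 N,
      (1 / ((d : ℚ) * e)) * ((Icc 1 N).filter fun k => d ∣ k ∧ e ∣ k).card := by
    have h2 : ∀ k ∈ Icc 1 N, c k ^ 2 = ∑ d ∈ Icc 1 N, ∑ e ∈ Icc 1 N,
        if d ∣ k ∧ e ∣ k then (1 / ((d : ℚ) * e)) else 0 := by
      intro k hk
      rw [Finset.mem_Icc] at hk
      have h3 : c k = ∑ d ∈ Icc 1 N, if d ∣ k then (1 / (d : ℚ)) else 0 := by
        rw [c_eq k (by omega), ← Finset.sum_filter]
        apply Finset.sum_congr _ fun _ _ => rfl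
        ext d
        rw [Nat.mem_divisors, Finset.mem_filter, Finset.mem_Icc]
        constructor
        · rintro ⟨h, h'⟩
          exact ⟨⟨Nat.pos_of_dvd_of_pos h (by omega), (Nat.le_of_dvd (by omega) h).trans hk.2⟩, h⟩
        · rintro ⟨-, h⟩
          exact ⟨h, by omega⟩
      rw [sq, h3, Finset.sum_mul_sum]
      apply Finset.sum_congr rfl
      intro d _
      apply Finset.sum_congr rfl
      intro e _
      by_cases hd : d ∣ k
      · by_cases he : e ∣ k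
        · rw [if_pos hd, if_pos he, if_pos ⟨hd, he⟩, one_div_mul_one_div]
        · rw [if_neg he, if_neg (show ¬ (d ∣ k ∧ e ∣ k) from fun h => he h.2), mul_zero]
      · rw [if_neg hd, if_neg (show ¬ (d ∣ k ∧ e ∣ k) from fun h => hd h.1), zero_mul]
    rw [Finset.sum_congr rfl h2, Finset.sum_comm]
    apply Finset.sum_congr rfl
    intro d _
    rw [Finset.sum_comm]
    apply Finset.sum_congr rfl
    intro e _
    rw [← Finset.sum_filter, Finset.sum_const, nsmul_eq_mul, mul_comm]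
  rw [h1]
  have h4 : ∀ d ∈ Icc 1 N, ∀ e ∈ Icc 1 N,
      (1 / ((d : ℚ) * e)) * ((Icc 1 N).filter fun k => d ∣ k ∧ e ∣ k).card ≤
      (N : ℚ) * ((if e ≤ d then 1 / ((e : ℚ) * (d : ℚ) ^ 2) else 0) +
        (if d ≤ e then 1 / ((d : ℚ) * (e : ℚ) ^ 2) else 0)) := by
    intro d hd e he
    rw [Finset.mem_Icc] at hd he
    have hd0 : (0 : ℚ) < d := by exact_mod_cast hd.1
    have he0 : (0 : ℚ) < e := by exact_mod_cast he.1
    have h5 := card_le N d e hd.1 he.1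
    have h6 : (1 / ((d : ℚ) * e)) * ((Icc 1 N).filter fun k => d ∣ k ∧ e ∣ k).card ≤
        (1 / ((d : ℚ) * e)) * ((N : ℚ) / ((max d e : ℕ) : ℚ)) := by gcongr
    refine h6.trans ?_
    rcases le_total e d with h | h
    · rw [max_eq_left h, if_pos h]
      have h7 : (0 : ℚ) ≤ if d ≤ e then 1 / ((d : ℚ) * (e : ℚ) ^ 2) else 0 := by split_ifs <;> positivity
      have h8 : (1 / ((d : ℚ) * e)) * ((N : ℚ) / (d : ℚ)) = (N : ℚ) * (1 / ((e : ℚ) * (d : ℚ) ^ 2)) := by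
        field_simp
      rw [h8]
      have : (0 : ℚ) ≤ N := by positivity
      nlinarith
    · rw [max_eq_right h, if_pos h]
      have h7 : (0 : ℚ) ≤ if e ≤ d then 1 / ((e : ℚ) * (d : ℚ) ^ 2) else 0 := by split_ifs <;> positivity
      have h8 : (1 / ((d : ℚ) * e)) * ((N : ℚ) / (e : ℚ)) = (N : ℚ) * (1 / ((d : ℚ) * (e : ℚ) ^ 2)) := by
        field_simp
      rw [h8]
      have : (0 : ℚ) ≤ N := by positivity
      nlinarith
  have h9 : ∀ e ∈ Icc 1 N, ∑ d ∈ Icc 1 N, (if e ≤ d then 1 / ((e : ℚ) * (d : ℚ) ^ 2) else 0) ≤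
      2 * (1 / (e : ℚ) ^ 2) := by
    intro e he
    rw [Finset.mem_Icc] at he
    have he0 : (0 : ℚ) < e := by exact_mod_cast he.1
    have h10 : ∑ d ∈ Icc 1 N, (if e ≤ d then 1 / ((e : ℚ) * (d : ℚ) ^ 2) else 0) =
        (1 / (e : ℚ)) * ∑ d ∈ Icc e N, (1 / ((d : ℚ) ^ 2)) := by
      rw [← Finset.sum_filter, Finset.mul_sum]
      apply Finset.sum_congr
      · ext d
        rw [Finset.mem_filter, Finset.mem_Icc, Finset.mem_Icc]
        omega
      · intro d _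
        rw [one_div_mul_one_div]
    rw [h10]
    have h11 := sum_inv_sq e he.1 N
    calc (1 / (e : ℚ)) * ∑ d ∈ Icc e N, (1 / ((d : ℚ) ^ 2)) ≤ (1 / (e : ℚ)) * (2 / (e : ℚ)) := by gcongr
      _ = 2 * (1 / (e : ℚ) ^ 2) := by field_simp
  have h12 : ∑ e ∈ Icc 1 N, ∑ d ∈ Icc 1 N, (if e ≤ d then 1 / ((e : ℚ) * (d : ℚ) ^ 2) else 0) ≤ 4 := by
    refine (Finset.sum_le_sum h9).trans ?_
    rw [← Finset.mul_sum]
    have := sum_inv_sq 1 le_rfl N
    norm_num at this ⊢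
    linarith
  calc ∑ d ∈ Icc 1 N, ∑ e ∈ Icc 1 N,
      (1 / ((d : ℚ) * e)) * ((Icc 1 N).filter fun k => d ∣ k ∧ e ∣ k).card
      ≤ ∑ d ∈ Icc 1 N, ∑ e ∈ Icc 1 N, (N : ℚ) * ((if e ≤ d then 1 / ((e : ℚ) * (d : ℚ) ^ 2) else 0) +
        (if d ≤ e then 1 / ((d : ℚ) * (e : ℚ) ^ 2) else 0)) :=
        Finset.sum_le_sum fun d hd => Finset.sum_le_sum fun e he => h4 d hd e he
    _ = (N : ℚ) * (∑ e ∈ Icc 1 N, ∑ d ∈ Icc 1 N, (if e ≤ d then 1 / ((e : ℚ) * (d : ℚ) ^ 2) else 0) +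
        ∑ d ∈ Icc 1 N, ∑ e ∈ Icc 1 N, (if d ≤ e then 1 / ((d : ℚ) * (e : ℚ) ^ 2) else 0)) := by
        simp only [← Finset.mul_sum, Finset.sum_add_distrib]
        rw [Finset.sum_comm]
    _ ≤ (N : ℚ) * (4 + 4) := by
        have : (0 : ℚ) ≤ N := by positivity
        gcongr
    _ = 8 * N := by ring

theorem exists_large (A : ℚ) : ∃ n : ℕ, 6 ≤ n ∧ A < c n := by
  obtain ⟨N, hN⟩ : ∃ N : ℕ, A < ∑ d ∈ Finset.range N, 1 / ((d : ℚ) + 1) := by
    have h := Real.tendsto_sum_range_one_div_nat_succ_atTop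
    obtain ⟨N, hN⟩ := (h.eventually (Filter.eventually_gt_atTop (A : ℝ))).exists
    refine ⟨N, ?_⟩
    have h2 : ((∑ d ∈ Finset.range N, 1 / ((d : ℚ) + 1) : ℚ) : ℝ) =
        ∑ i ∈ Finset.range N, 1 / ((i : ℝ) + 1) := by push_cast; rfl
    rw [← h2] at hN
    exact_mod_cast hN
  refine ⟨(max N 3).factorial, ?_, ?_⟩
  · calc 6 = Nat.factorial 3 := rfl
      _ ≤ _ := Nat.factorial_le (le_max_right _ _)
  · rw [c_eq _ (Nat.factorial_ne_zero _)]
    refine hN.trans_le ?_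
    have h1 : ∑ d ∈ Finset.range N, 1 / ((d : ℚ) + 1) =
        ∑ d ∈ (Finset.range N).image (fun d : ℕ => d + 1), 1 / (d : ℚ) := by
      rw [Finset.sum_image (by intro a _ b _ h; exact Nat.succ_injective h)]
      apply Finset.sum_congr rfl
      intro d _
      push_cast
      rfl
    rw [h1]
    apply Finset.sum_le_sum_of_subset_of_nonneg
    · intro d hd
      rw [Finset.mem_image] at hd
      obtain ⟨a, ha, rfl⟩ := hd
      rw [Finset.mem_range] at ha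
      rw [Nat.mem_divisors]
      exact ⟨Nat.dvd_factorial (by omega) (by
        have := le_max_left N 3
        omega), Nat.factorial_ne_zero _⟩
    · intro d _ _
      positivity

end Pool.Agent.W238.Darcais
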