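import Pool.Agent.W960.HC.Defs

/-! Project HC, part HCE: three limit cycles. -/

set_option autoImplicit false

open Set Topology Filter MeasureTheory

namespace Pool.Agent.W238.HC

open Pool.Agent.W960.HC

theorem kp_anti {x y : ℝ} (hx : 0 < x) (hxy : x < y) : kp y < kp x := by
  unfold kp
  have hu : 0 < x ^ 2 := by positivity
  have huv : x ^ 2 < y ^ 2 := by
    apply pow_lt_pow_left₀ hxy hx.le (by norm_num)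
  have h1 : y ^ 2 - x ^ 2 + 1 ≤ Real.exp (y ^ 2 - x ^ 2) := Real.add_one_le_exp _
  have h2 : Real.exp (-x ^ 2) = Real.exp (-y ^ 2) * Real.exp (y ^ 2 - x ^ 2) := by
    rw [← Real.exp_add]
    congr 1
    ring
  rw [h2, mul_assoc]
  apply mul_lt_mul_of_pos_left _ (Real.exp_pos _)
  nlinarith [mul_pos hu (sub_pos.2 huv)]

theorem kap_neg (z : ℝ × ℝ) : kap (-z) = kap z := by
  unfold kap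
  simp

theorem band
    (hP : ∀ {a c R X₀ m : ℝ}, 0 < X₀ → ∀ {Z : ℝ → ℝ × ℝ → ℝ → ℝ × ℝ} {W : ℝ → ℝ × ℝ → ℝ → ℝ},
      Flw a c R Z W → ∀ {τ : ℝ × ℝ → ℝ} {δ : ℝ}, Half a c R X₀ Z W τ δ →
      Mel a c X₀ = 0 → HasDerivAt (Mel a c) m X₀ → m ≠ 0 → ∀ {s : ℝ}, 0 < s →
      ∃ ε₀ > 0, ∀ ε ∈ Ioo 0 ε₀, ∃ X r : ℝ, 0 < r ∧ X₀ - δ < X - r ∧ X + r < X₀ + δ ∧ ε < δ ∧
        W (τ (X, ε)) (0, et X) ε = 0 ∧ Z (τ (X, ε)) (0, et X) ε = (0, -et X) ∧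
        (∀ t ∈ Icc 0 (τ (X, ε)), |kap (Z t (0, et X) ε) - kp X₀| < s) ∧
        (∀ X' ∈ Ioo (X - r) (X + r), X' ≠ X →
          Z (τ (X', ε)) (0, et X') ε ≠ (0, -et X')) ∧
        (∀ X' ∈ Ioo (X - r) (X + r), ∀ X'' ∈ Ioo (X - r) (X + r), X' < X'' →
          (Z (τ (X'', ε)) (0, et X'') ε).2 < (Z (τ (X', ε)) (0, et X') ε).2))
    (hC : ∀ {a c R X₀ : ℝ} {Z : ℝ → ℝ × ℝ → ℝ → ℝ × ℝ} {W : ℝ → ℝ × ℝ → ℝ → ℝ},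
      Flw a c R Z W → ∀ {τ : ℝ × ℝ → ℝ} {δ : ℝ}, Half a c R X₀ Z W τ δ →
      ∀ {ε X r : ℝ}, 0 < ε → ε < δ → 0 < r → X₀ - δ < X - r → X + r < X₀ + δ →
      Z (τ (X, ε)) (0, et X) ε = (0, -et X) →
      (∀ X' ∈ Ioo (X - r) (X + r), X' ≠ X → Z (τ (X', ε)) (0, et X') ε ≠ (0, -et X')) →
      (∀ X' ∈ Ioo (X - r) (X + r), ∀ X'' ∈ Ioo (X - r) (X + r), X' < X'' →
        (Z (τ (X'', ε)) (0, et X'') ε).2 < (Z (τ (X', ε)) (0, et X') ε).2) →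
      ∃ C ∈ Cyc (fld a c ε), (0, et X) ∈ C ∧ ∀ z ∈ C, ∃ t ∈ Icc 0 (τ (X, ε)),
        z = Z t (0, et X) ε ∨ z = -Z t (0, et X) ε)
    {a c R X₀ m : ℝ} (hX : 0 < X₀) {Z : ℝ → ℝ × ℝ → ℝ → ℝ × ℝ} {W : ℝ → ℝ × ℝ → ℝ → ℝ}
    (h : Flw a c R Z W) {τ : ℝ × ℝ → ℝ} {δ : ℝ} (hh : Half a c R X₀ Z W τ δ)
    (h0 : Mel a c X₀ = 0) (hm : HasDerivAt (Mel a c) m X₀) (hm0 : m ≠ 0) {s : ℝ} (hs : 0 < s) :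
    ∃ ε₀ > 0, ∀ ε ∈ Ioo 0 ε₀, ∃ C ∈ Cyc (fld a c ε), C.Nonempty ∧
      ∀ z ∈ C, |kap z - kp X₀| < s := by
  obtain ⟨ε₀, hε₀, H⟩ := hP hX h hh h0 hm hm0 hs
  refine ⟨ε₀, hε₀, fun ε hε => ?_⟩
  obtain ⟨X, r, hr, h1, h2, h3, _, h5, h6, h7, h8⟩ := H ε hε
  obtain ⟨C, hCC, hmem, hz⟩ := hC h hh hε.1 h3 hr h1 h2 h5 h7 h8
  refine ⟨C, hCC, ⟨_, hmem⟩, fun z hzC => ?_⟩
  obtain ⟨t, ht, rfl | rfl⟩ := hz z hzC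
  · exact h6 t ht
  · rw [kap_neg]
    exact h6 t ht

theorem three
    (hF : ∀ a c R : ℝ, ∃ Z W, Flw a c R Z W)
    (hH : ∀ {a c R X₀ : ℝ}, 0 < X₀ → 2 + X₀ < R →
      ∀ {Z : ℝ → ℝ × ℝ → ℝ → ℝ × ℝ} {W : ℝ → ℝ × ℝ → ℝ → ℝ}, Flw a c R Z W →
      ∃ τ δ, Half a c R X₀ Z W τ δ)
    (hS : ∃ a c x₁ x₂ x₃ m₁ m₂ m₃ : ℝ, 0 < x₁ ∧ x₁ < x₂ ∧ x₂ < x₃ ∧
      Mel a c x₁ = 0 ∧ Mel a c x₂ = 0 ∧ Mel a c x₃ = 0 ∧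
      HasDerivAt (Mel a c) m₁ x₁ ∧ HasDerivAt (Mel a c) m₂ x₂ ∧ HasDerivAt (Mel a c) m₃ x₃ ∧
      m₁ ≠ 0 ∧ m₂ ≠ 0 ∧ m₃ ≠ 0)
    (hP : ∀ {a c R X₀ m : ℝ}, 0 < X₀ → ∀ {Z : ℝ → ℝ × ℝ → ℝ → ℝ × ℝ} {W : ℝ → ℝ × ℝ → ℝ → ℝ},
      Flw a c R Z W → ∀ {τ : ℝ × ℝ → ℝ} {δ : ℝ}, Half a c R X₀ Z W τ δ →
      Mel a c X₀ = 0 → HasDerivAt (Mel a c) m X₀ → m ≠ 0 → ∀ {s : ℝ}, 0 < s →
      ∃ ε₀ > 0, ∀ ε ∈ Ioo 0 ε₀, ∃ X r : ℝ, 0 < r ∧ X₀ - δ < X - r ∧ X + r < X₀ + δ ∧ ε < δ ∧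
        W (τ (X, ε)) (0, et X) ε = 0 ∧ Z (τ (X, ε)) (0, et X) ε = (0, -et X) ∧
        (∀ t ∈ Icc 0 (τ (X, ε)), |kap (Z t (0, et X) ε) - kp X₀| < s) ∧
        (∀ X' ∈ Ioo (X - r) (X + r), X' ≠ X →
          Z (τ (X', ε)) (0, et X') ε ≠ (0, -et X')) ∧
        (∀ X' ∈ Ioo (X - r) (X + r), ∀ X'' ∈ Ioo (X - r) (X + r), X' < X'' →
          (Z (τ (X'', ε)) (0, et X'') ε).2 < (Z (τ (X', ε)) (0, et X') ε).2))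
    (hC : ∀ {a c R X₀ : ℝ} {Z : ℝ → ℝ × ℝ → ℝ → ℝ × ℝ} {W : ℝ → ℝ × ℝ → ℝ → ℝ},
      Flw a c R Z W → ∀ {τ : ℝ × ℝ → ℝ} {δ : ℝ}, Half a c R X₀ Z W τ δ →
      ∀ {ε X r : ℝ}, 0 < ε → ε < δ → 0 < r → X₀ - δ < X - r → X + r < X₀ + δ →
      Z (τ (X, ε)) (0, et X) ε = (0, -et X) →
      (∀ X' ∈ Ioo (X - r) (X + r), X' ≠ X → Z (τ (X', ε)) (0, et X') ε ≠ (0, -et X')) →
      (∀ X' ∈ Ioo (X - r) (X + r), ∀ X'' ∈ Ioo (X - r) (X + r), X' < X'' →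
        (Z (τ (X'', ε)) (0, et X'') ε).2 < (Z (τ (X', ε)) (0, et X') ε).2) →
      ∃ C ∈ Cyc (fld a c ε), (0, et X) ∈ C ∧ ∀ z ∈ C, ∃ t ∈ Icc 0 (τ (X, ε)),
        z = Z t (0, et X) ε ∨ z = -Z t (0, et X) ε) :
    ∃ a c ε : ℝ, 2 < (Cyc (fld a c ε)).encard := by
  obtain ⟨a, c, x₁, x₂, x₃, m₁, m₂, m₃, h1, h12, h23, z1, z2, z3, d1, d2, d3, n1, n2, n3⟩ := hS
  have h2 : 0 < x₂ := h1.trans h12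
  have h3 : 0 < x₃ := h2.trans h23
  obtain ⟨Z, W, hFl⟩ := hF a c (3 + x₃)
  obtain ⟨τ₁, δ₁, hh1⟩ := hH h1 (by linarith : 2 + x₁ < 3 + x₃) hFl
  obtain ⟨τ₂, δ₂, hh2⟩ := hH h2 (by linarith : 2 + x₂ < 3 + x₃) hFl
  obtain ⟨τ₃, δ₃, hh3⟩ := hH h3 (by linarith : 2 + x₃ < 3 + x₃) hFl
  have k12 := kp_anti h1 h12
  have k23 := kp_anti h2 h23
  set s : ℝ := min (kp x₁ - kp x₂) (kp x₂ - kp x₃) / 3 with hs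
  have hmin : 0 < min (kp x₁ - kp x₂) (kp x₂ - kp x₃) :=
    lt_min (sub_pos.2 k12) (sub_pos.2 k23)
  have hs0 : 0 < s := by rw [hs]; linarith
  have hs12 : 3 * s ≤ kp x₁ - kp x₂ := by
    rw [hs]
    have := min_le_left (kp x₁ - kp x₂) (kp x₂ - kp x₃)
    linarith
  have hs23 : 3 * s ≤ kp x₂ - kp x₃ := by
    rw [hs]
    have := min_le_right (kp x₁ - kp x₂) (kp x₂ - kp x₃)
    linarith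
  obtain ⟨e₁, he₁, H₁⟩ := band hP hC h1 hFl hh1 z1 d1 n1 hs0
  obtain ⟨e₂, he₂, H₂⟩ := band hP hC h2 hFl hh2 z2 d2 n2 hs0
  obtain ⟨e₃, he₃, H₃⟩ := band hP hC h3 hFl hh3 z3 d3 n3 hs0
  set ε : ℝ := min e₁ (min e₂ e₃) / 2 with hε
  have hm : 0 < min e₁ (min e₂ e₃) := lt_min he₁ (lt_min he₂ he₃)
  have l1 : min e₁ (min e₂ e₃) ≤ e₁ := min_le_left _ _
  have l2 : min e₁ (min e₂ e₃) ≤ e₂ := (min_le_right _ _).trans (min_le_left _ _)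
  have l3 : min e₁ (min e₂ e₃) ≤ e₃ := (min_le_right _ _).trans (min_le_right _ _)
  obtain ⟨C₁, c1, ⟨p₁, hp₁⟩, b1⟩ := H₁ ε ⟨by rw [hε]; linarith, by rw [hε]; linarith⟩
  obtain ⟨C₂, c2, ⟨p₂, hp₂⟩, b2⟩ := H₂ ε ⟨by rw [hε]; linarith, by rw [hε]; linarith⟩
  obtain ⟨C₃, c3, ⟨p₃, hp₃⟩, b3⟩ := H₃ ε ⟨by rw [hε]; linarith, by rw [hε]; linarith⟩
  refine ⟨a, c, ε, ?_⟩
  have ne12 : C₁ ≠ C₂ := by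
    intro he
    have u1 := abs_lt.1 (b1 p₁ hp₁)
    have u2 := abs_lt.1 (b2 p₁ (he ▸ hp₁))
    linarith [u1.1, u1.2, u2.1, u2.2]
  have ne13 : C₁ ≠ C₃ := by
    intro he
    have u1 := abs_lt.1 (b1 p₁ hp₁)
    have u2 := abs_lt.1 (b3 p₁ (he ▸ hp₁))
    linarith [u1.1, u1.2, u2.1, u2.2]
  have ne23 : C₂ ≠ C₃ := by
    intro he
    have u1 := abs_lt.1 (b2 p₂ hp₂)
    have u2 := abs_lt.1 (b3 p₂ (he ▸ hp₂))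
    linarith [u1.1, u1.2, u2.1, u2.2]
  have hsub : ({C₁, C₂, C₃} : Set (Set (ℝ × ℝ))) ⊆ Cyc (fld a c ε) := by
    intro C hC'
    simp only [mem_insert_iff, mem_singleton_iff] at hC'
    rcases hC' with rfl | rfl | rfl
    · exact c1
    · exact c2
    · exact c3
  have hcard : ({C₁, C₂, C₃} : Set (Set (ℝ × ℝ))).encard = 3 := by
    rw [Set.encard_insert_of_notMem, Set.encard_insert_of_notMem, Set.encard_singleton]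
    · norm_num
    · simpa using ne23
    · simp [ne12, ne13]
  calc (2 : ℕ∞) < 3 := by norm_num
    _ = ({C₁, C₂, C₃} : Set (Set (ℝ × ℝ))).encard := hcard.symm
    _ ≤ (Cyc (fld a c ε)).encard := Set.encard_le_encard hsub

end Pool.Agent.W238.HC
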